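import Pool.Agent.Helper92.Ru.GoalsS

/-! Packet M2 of MP_d1d051_nt: Minkowski's second theorem from the first and the twist. -/

set_option autoImplicit false

open NumberField

namespace Pool.Agent.Helper4.Ru

open Pool.Agent.Helper92.Ru

variable {k : Type} [Field k] [NumberField k] {T : Finset (FinitePlace k)} {ι : Type}
  [Fintype ι]

theorem factor_nonneg [Nonempty ι] (A : SP k T → Matrix ι ι k) (w : SP k T → ι → ℝ)
    (hw : ∀ v i, 0 < w v i) (x : ι → k) (v : SP k T) :
    0 ≤ ⨆ i, nS v ((A v).mulVec x i) / w v i :=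
  Real.iSup_nonneg fun i => div_nonneg (nS_nonneg v _) (hw v i).le

theorem factor_pos [DecidableEq ι] [Nonempty ι] (A : SP k T → Matrix ι ι k)
    (hA : ∀ v, (A v).det ≠ 0)
    (w : SP k T → ι → ℝ) (hw : ∀ v i, 0 < w v i) (x : ι → k) (hx : x ≠ 0) (v : SP k T) :
    0 < ⨆ i, nS v ((A v).mulVec x i) / w v i := by
  have h1 : (A v).mulVec x ≠ 0 := by
    intro h
    exact hx (Matrix.eq_zero_of_mulVec_eq_zero (hA v) h)
  obtain ⟨i, hi⟩ := Function.ne_iff.1 h1
  have h2 : 0 < nS v ((A v).mulVec x i) / w v i := div_pos (nS_pos v hi) (hw v i)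
  exact h2.trans_le (le_ciSup (f := fun i => nS v ((A v).mulVec x i) / w v i)
    (Set.finite_range _).bddAbove i)

theorem HH_pos [DecidableEq ι] [Nonempty ι] (A : SP k T → Matrix ι ι k)
    (hA : ∀ v, (A v).det ≠ 0)
    (w : SP k T → ι → ℝ) (hw : ∀ v i, 0 < w v i) (x : ι → k) (hx : x ≠ 0) :
    0 < HH A w x :=
  Finset.prod_pos fun v _ => factor_pos A hA w hw x hx v

theorem minkTwo : M1 → Twist → M2 := by
  classical
  intro hM1 hTw k _ _ T ι _ _ _ A hA
  obtain ⟨C1, hC1, hM⟩ := hM1 k T ι A
  obtain ⟨v0⟩ : Nonempty (InfinitePlace k) := inferInstance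
  obtain ⟨c, hc, hc1, hT⟩ := hTw k T ι A hA v0
  set N := Fintype.card ι with hN
  have hN0 : 0 < N := Fintype.card_pos
  set η := c / 8 with hη
  have hη0 : 0 < η := by positivity
  refine ⟨C1 / η ^ N, by positivity, ?_⟩
  intro w hw x hG
  obtain ⟨hli, hint, hgr⟩ := hG
  obtain ⟨π, hπ⟩ := hT w hw x hli
  set la : Fin N → ℝ := fun j => HH A w (x j) with hla
  have hlap : ∀ j, 0 < la j := fun j => HH_pos A hA w hw (x j) (hli.ne_zero j)
  set la' : Fin N → ℝ := fun j => (Finset.Iic j).sup' ⟨j, by simp⟩ la with hla'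
  have hle : ∀ j j', j' ≤ j → la j' ≤ la' j := fun j j' h =>
    Finset.le_sup' la (Finset.mem_Iic.2 h)
  have hla'p : ∀ j, 0 < la' j := fun j => (hlap j).trans_le (hle j j le_rfl)
  have hmono : Monotone la' := by
    intro j j' h
    apply Finset.sup'_le
    intro i hi
    exact hle j' i ((Finset.mem_Iic.1 hi).trans h)
  have h2 : ∀ j, la' j ≤ 2 * la j := by
    intro j
    apply Finset.sup'_le
    intro i hi
    have hi := Finset.mem_Iic.1 hi
    apply hgr i (x j) (hint j)
    intro hmem
    have := hli.notMem_span_image (s := {j' | j' < i}) (x := j) (by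
      simp only [Set.mem_ofPred_eq, not_lt]; exact hi)
    exact this hmem
  set ρ : Fin N → ℝ := fun j => 1 / la' j with hρ
  have hρp : ∀ j, 0 < ρ j := fun j => one_div_pos.2 (hla'p j)
  have hanti : Antitone ρ := by
    intro j j' h
    exact one_div_le_one_div_of_le (hla'p j) (hmono h)
  set w' : SP k T → ι → ℝ := fun v i =>
    if v = Sum.inl v0 then w v i / ρ (π.symm i) else w v i with hw'
  have hw'p : ∀ v i, 0 < w' v i := by
    intro v i
    simp only [hw']
    split_ifs
    · exact div_pos (hw v i) (hρp _)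
    · exact hw v i
  have key := hπ ρ hρp hanti w' (by
    intro v i hv
    simp [hw', hv]) (by
    intro j
    simp [hw'])
  have claim : ∀ y : ι → k, SIntV T y → y ≠ 0 → c / 4 ≤ HH A w' y := by
    intro y hy hy0
    -- least j
    have hex : ∃ j : Fin N, y ∈ Submodule.span k (x '' {j' | j' ≤ j}) := by
      refine ⟨⟨N - 1, by omega⟩, ?_⟩
      have hset : {j' : Fin N | j' ≤ ⟨N - 1, by omega⟩} = Set.univ := by
        ext j'
        simp only [Set.mem_ofPred_eq, Set.mem_univ, iff_true, Fin.le_def]
        have := j'.2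
        omega
      rw [hset, Set.image_univ]
      have hne : Nonempty (Fin N) := ⟨⟨0, hN0⟩⟩
      have := hli.span_eq_top_of_card_eq_finrank (by simp [hN])
      rw [this]
      trivial
    set P : Finset (Fin N) := Finset.univ.filter
      (fun j => y ∈ Submodule.span k (x '' {j' | j' ≤ j})) with hP
    have hPne : P.Nonempty := by
      obtain ⟨j, hj⟩ := hex
      exact ⟨j, by simp [hP, hj]⟩
    set j := P.min' hPne with hj
    have hjm : y ∈ Submodule.span k (x '' {j' | j' ≤ j}) := by
      have h := P.min'_mem hPne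
      exact (Finset.mem_filter.1 h).2
    have hjn : y ∉ Submodule.span k (x '' {j' | j' < j}) := by
      intro hmem
      by_cases h0 : (j : ℕ) = 0
      · have hset : {j' : Fin N | j' < j} = ∅ := by
          ext j'
          simp only [Set.mem_ofPred_eq, Set.mem_empty_iff_false, iff_false, Fin.lt_def]
          omega
        rw [hset, Set.image_empty, Submodule.span_empty, Submodule.mem_bot] at hmem
        exact hy0 hmem
      · have hlt : (j : ℕ) - 1 < N := by have := j.2; omega
        have hset : {j' : Fin N | j' < j} = {j' : Fin N | j' ≤ ⟨(j : ℕ) - 1, hlt⟩} := by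
          ext j'
          simp only [Set.mem_ofPred_eq, Fin.lt_def, Fin.le_def]
          omega
        rw [hset] at hmem
        have hmin : j ≤ ⟨(j : ℕ) - 1, hlt⟩ :=
          P.min'_le _ (Finset.mem_filter.2 ⟨Finset.mem_univ _, hmem⟩)
        rw [Fin.le_def] at hmin
        have hmin' : (j : ℕ) ≤ (j : ℕ) - 1 := hmin
        omega
    have h3 : la j ≤ 2 * HH A w y := hgr j y hy hjn
    have h4 := key j y hjm
    have h5 : 1 / 2 ≤ la j / la' j := by
      rw [div_le_div_iff₀ (by norm_num) (hla'p j)]
      have := h2 j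
      linarith
    have h6 : c * ρ j * HH A w y = c * (HH A w y / la' j) := by
      simp only [hρ]; ring
    rw [h6] at h4
    have h7 : la j / la' j ≤ 2 * (HH A w y / la' j) := by
      rw [← mul_div_assoc]
      exact div_le_div_of_nonneg_right h3 (hla'p j).le
    have h8 : c * (1 / 4) ≤ c * (HH A w y / la' j) := by
      apply mul_le_mul_of_nonneg_left _ hc.le
      linarith
    linarith
  set w'' : SP k T → ι → ℝ := fun v i =>
    if v = Sum.inl v0 then η * w' v i else w' v i with hw''
  have hw''p : ∀ v i, 0 < w'' v i := by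
    intro v i
    simp only [hw'']
    split_ifs
    · exact mul_pos hη0 (hw'p v i)
    · exact hw'p v i
  have hHH : ∀ y : ι → k, HH A w'' y = HH A w' y / η := by
    intro y
    unfold HH
    rw [← Finset.mul_prod_erase Finset.univ _ (Finset.mem_univ (Sum.inl v0 : SP k T)),
      ← Finset.mul_prod_erase Finset.univ (fun v => ⨆ i, nS v ((A v).mulVec y i) / w' v i)
        (Finset.mem_univ (Sum.inl v0 : SP k T))]
    have e1 : (⨆ i, nS (Sum.inl v0 : SP k T) ((A (Sum.inl v0)).mulVec y i) /
        w'' (Sum.inl v0) i) = η⁻¹ * (⨆ i, nS (Sum.inl v0 : SP k T)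
          ((A (Sum.inl v0)).mulVec y i) / w' (Sum.inl v0) i) := by
      rw [Real.mul_iSup_of_nonneg (by positivity)]
      congr 1
      ext i
      simp only [hw'', if_true]
      have := (hw'p (Sum.inl v0) i).ne'
      field_simp
    have e2 : ∏ v ∈ Finset.univ.erase (Sum.inl v0 : SP k T),
          (⨆ i, nS v ((A v).mulVec y i) / w'' v i) =
        ∏ v ∈ Finset.univ.erase (Sum.inl v0 : SP k T),
          (⨆ i, nS v ((A v).mulVec y i) / w' v i) := by
      apply Finset.prod_congr rfl
      intro v hv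
      have hv' : v ≠ Sum.inl v0 := (Finset.mem_erase.1 hv).1
      simp only [hw'', if_neg hv']
    rw [e1, e2]
    ring
  have hlt : ∏ v, ∏ i, w'' v i < C1 := by
    by_contra hcon
    push_neg at hcon
    obtain ⟨y, hy0, hyI, hyb⟩ := hM w'' hw''p hcon
    have h9 := claim y hyI hy0
    have h10 : HH A w'' y ≤ 1 := by
      unfold HH
      apply Finset.prod_le_one
      · intro v _
        exact factor_nonneg A w'' hw''p y v
      · intro v _
        apply ciSup_le
        intro i
        rw [div_le_one (hw''p v i)]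
        exact hyb v i
    rw [hHH, div_le_one hη0] at h10
    rw [hη] at h10
    linarith
  have hprod : ∏ v, ∏ i, w'' v i = η ^ N * ((∏ v, ∏ i, w v i) * ∏ j, la' j) := by
    rw [← Finset.mul_prod_erase Finset.univ _ (Finset.mem_univ (Sum.inl v0 : SP k T)),
      ← Finset.mul_prod_erase Finset.univ (fun v => ∏ i, w v i)
        (Finset.mem_univ (Sum.inl v0 : SP k T))]
    have e1 : ∏ i, w'' (Sum.inl v0) i = η ^ N * ((∏ i, w (Sum.inl v0) i) * ∏ j, la' j) := by
      have e3 : ∀ i, w'' (Sum.inl v0) i = η * (w (Sum.inl v0) i * la' (π.symm i)) := by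
        intro i
        simp only [hw'', hw', if_true, hρ]
        rw [one_div, div_inv_eq_mul]
      rw [Finset.prod_congr rfl fun i _ => e3 i, Finset.prod_mul_distrib, Finset.prod_mul_distrib,
        Finset.prod_const, Finset.card_univ]
      congr 2
      exact Equiv.prod_comp π.symm la'
    have e2 : ∏ v ∈ Finset.univ.erase (Sum.inl v0 : SP k T), ∏ i, w'' v i =
        ∏ v ∈ Finset.univ.erase (Sum.inl v0 : SP k T), ∏ i, w v i := by
      apply Finset.prod_congr rfl
      intro v hv
      have hv' : v ≠ Sum.inl v0 := (Finset.mem_erase.1 hv).1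
      simp only [hw'', hw', if_neg hv']
    rw [e1, e2]
    ring
  rw [hprod] at hlt
  have hW : 0 < ∏ v, ∏ i, w v i := Finset.prod_pos fun v _ => Finset.prod_pos fun i _ => hw v i
  have hfin : ∏ j, la j ≤ ∏ j, la' j :=
    Finset.prod_le_prod (fun j _ => (hlap j).le) (fun j _ => hle j j le_rfl)
  rw [le_div_iff₀ (by positivity)]
  calc (∏ v, ∏ i, w v i) * (∏ j, la j) * η ^ N
      = η ^ N * ((∏ v, ∏ i, w v i) * ∏ j, la j) := by ring
    _ ≤ η ^ N * ((∏ v, ∏ i, w v i) * ∏ j, la' j) := by
        apply mul_le_mul_of_nonneg_left _ (by positivity)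
        exact mul_le_mul_of_nonneg_left hfin hW.le
    _ ≤ C1 := hlt.le

end Pool.Agent.Helper4.Ru
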